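import Pool.Agent.H71.TSG.M38

/-!
# Project TM: comparison of the two chain maps
-/

set_option autoImplicit false
set_option linter.unusedSectionVars false

open Finset Pointwise

namespace Pool.Agent.H37.TM

open Pool.Agent.H19.Cub Pool.Agent.H77.SX

variable {V X U Γ P K : Type} [DecidableEq V] [DecidableEq U] [Group Γ] [MulAction Γ U]
  {Q : CubeComplex V X} {x₀ : X} [MulAction Γ (Q.Cover x₀)] {bit : X → V → ZMod 2}
  [Group P] [Field K] [Algebra (ZMod 2) K] {g : V → P} {t : V → P → K}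

omit [DecidableEq U] [Group Γ] [MulAction Γ U] [MulAction Γ (Q.Cover x₀)] in
theorem nbc_of_notMem {c : Q.Cover x₀} {v : V} (h : v ∉ Q.lab (Q.proj x₀ c)) :
    Q.nbc x₀ v c = c := by
  induction c using Quot.ind with
  | mk l =>
    have h' : v ∉ Q.lab (Q.fin x₀ l.1) := h
    show Quot.mk _ (Q.ext x₀ v l) = _
    unfold CubeComplex.ext
    rw [dif_neg h']

omit [DecidableEq U] [Group Γ] [MulAction Γ U] [MulAction Γ (Q.Cover x₀)] in
theorem nbc_nbc (c : Q.Cover x₀) (v : V) : Q.nbc x₀ v (Q.nbc x₀ v c) = c := by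
  by_cases h : v ∈ Q.lab (Q.proj x₀ c)
  · exact (Q.cover x₀).nb_nb v c h
  · rw [nbc_of_notMem h, nbc_of_notMem h]

/-- A function `c` on the cubes of dimension `d + 1` which does not depend on the vertex and has boundary zero:
the sum over the cofaces of a cube `b` of dimension `d` is zero. -/
theorem sum_cofaces {Y : Type} [AddCommGroup Y] [Module (ZMod 2) Y] [Fintype V] {d : ℕ}
    (hbit : IsBit Q bit) (c : Q.Cover x₀ × Finset V → Y)
    (h0 : ∀ e, c e ≠ 0 → e.2 ⊆ Q.lab (Q.proj x₀ e.1) ∧ Q.graph.IsClique (e.2 : Set V) ∧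
      e.2.card = d + 1)
    (h1 : ∀ x σ, σ ⊆ Q.lab (Q.proj x₀ x) → ∀ v ∈ σ, c (Q.nbc x₀ v x, σ) = c (x, σ))
    (h2 : ∀ x κ, ∑ v ∈ κᶜ, c (x, insert v κ) = 0) (b : Q.Cover x₀ × Finset V)
    (hb : b ∈ Cell Q x₀ bit d) :
    {e | e ∈ Cell Q x₀ bit (d + 1) ∧ bdD Q x₀ e b ≠ 0}.Finite ∧
    ∑ᶠ e : Q.Cover x₀ × Finset V, (open Classical in
      if e ∈ Cell Q x₀ bit (d + 1) then bdD Q x₀ e b • c e else 0) = 0 := by
  classical
  obtain ⟨x, κ⟩ := b
  obtain ⟨hb1, hb2, hb3, hb4⟩ := hb
  have hb4' : ∀ u ∈ κ, bit (Q.proj x₀ x) u = 0 := hb4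
  set ev : V → Q.Cover x₀ × Finset V := fun v =>
    (if bit (Q.proj x₀ x) v = 0 then x else Q.nbc x₀ v x, insert v κ) with hev
  have hA : ∀ e : Q.Cover x₀ × Finset V, e ∈ Cell Q x₀ bit (d + 1) → bdD Q x₀ e (x, κ) ≠ 0 →
      e ∈ κᶜ.image ev := by
    rintro ⟨y, σ⟩ ⟨he1, he2, he3, he4⟩ he
    rw [bdD, Finsupp.finsetSum_apply] at he
    obtain ⟨v, hv, hvb⟩ := exists_ne_zero_of_sum_ne_zero he
    have hv' : v ∈ σ := hv
    have he1' : σ ⊆ Q.lab (Q.proj x₀ y) := he1
    have he4' : ∀ u ∈ σ, bit (Q.proj x₀ y) u = 0 := he4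
    rw [Finsupp.add_apply] at hvb
    by_cases h5 : (y, σ.erase v) = (x, κ)
    · rw [Prod.mk.injEq] at h5
      obtain ⟨rfl, h5⟩ := h5
      refine mem_image.2 ⟨v, ?_, ?_⟩
      · rw [mem_compl, ← h5]
        exact notMem_erase v σ
      · show (if bit (Q.proj x₀ y) v = 0 then y else Q.nbc x₀ v y, insert v κ) = (y, σ)
        rw [if_pos (he4' v hv'), ← h5, insert_erase hv']
    · have h6 : (Q.nbc x₀ v y, σ.erase v) = (x, κ) := by
        by_contra h6
        have h7 : (Finsupp.single (y, σ.erase v) (1 : ZMod 2)) (x, κ) = 0 :=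
          Finsupp.single_eq_of_ne (Ne.symm h5)
        have h8 : (Finsupp.single (Q.nbc x₀ v y, σ.erase v) (1 : ZMod 2)) (x, κ) = 0 :=
          Finsupp.single_eq_of_ne (Ne.symm h6)
        exact hvb (by
          show (Finsupp.single (y, σ.erase v) (1 : ZMod 2)) (x, κ) +
            (Finsupp.single (Q.nbc x₀ v y, σ.erase v) (1 : ZMod 2)) (x, κ) = 0
          rw [h7, h8, add_zero])
      rw [Prod.mk.injEq] at h6
      obtain ⟨h6, h7⟩ := h6
      have h8 : bit (Q.proj x₀ x) v = 1 := by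
        rw [← h6, proj_nbc x₀ (he1' hv'), hbit v _ (he1' hv') v, he4' v hv', if_pos rfl, zero_add]
      refine mem_image.2 ⟨v, ?_, ?_⟩
      · rw [mem_compl, ← h7]
        exact notMem_erase v σ
      · show (if bit (Q.proj x₀ x) v = 0 then x else Q.nbc x₀ v x, insert v κ) = (y, σ)
        rw [if_neg (by rw [h8]; exact one_ne_zero), ← h7, insert_erase hv', ← h6,
          nbc_nbc]
  have hfin : {e | e ∈ Cell Q x₀ bit (d + 1) ∧ bdD Q x₀ e (x, κ) ≠ 0}.Finite :=
    ((κᶜ.image ev).finite_toSet).subset fun e he => mem_coe.2 (hA e he.1 he.2)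
  refine ⟨hfin, ?_⟩
  set F : Q.Cover x₀ × Finset V → Y := fun e =>
    if e ∈ Cell Q x₀ bit (d + 1) then bdD Q x₀ e (x, κ) • c e else 0 with hFdef
  have hsupp : Function.support F ⊆ ((κᶜ.image ev : Finset _) : Set _) := by
    intro e he
    rw [Function.mem_support] at he
    by_cases h3 : e ∈ Cell Q x₀ bit (d + 1)
    · have h4 : F e = bdD Q x₀ e (x, κ) • c e := if_pos h3
      refine mem_coe.2 (hA e h3 fun h5 => he ?_)
      rw [h4, h5, zero_smul]
    · exact absurd (if_neg h3) he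
  have hinj : Set.InjOn ev ((κᶜ : Finset V) : Set V) := by
    intro v hv w hw hvw
    have h3 : insert v κ = insert w κ := congrArg Prod.snd hvw
    have h4 : v ∈ insert w κ := h3 ▸ mem_insert_self v κ
    rcases mem_insert.1 h4 with h5 | h5
    · exact h5
    · exact absurd h5 (mem_compl.1 (mem_coe.1 hv))
  show ∑ᶠ e, F e = 0
  rw [finsum_eq_sum_of_support_subset F hsupp, sum_image hinj, ← h2 x κ]
  refine sum_congr rfl fun v hv => ?_
  have hv : v ∉ κ := mem_compl.1 hv
  -- the coefficient of `(x, κ)`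
  have hcoef : ∀ y : Q.Cover x₀, bdD Q x₀ (y, insert v κ) (x, κ) =
      (Finsupp.single y (1 : ZMod 2)) x + (Finsupp.single (Q.nbc x₀ v y) (1 : ZMod 2)) x := by
    intro y
    rw [bdD, Finsupp.finsetSum_apply]
    have h3 : ∀ w ∈ insert v κ, w ≠ v → ((Finsupp.single (y, (insert v κ).erase w) (1 : ZMod 2)) +
        Finsupp.single (Q.nbc x₀ w y, (insert v κ).erase w) 1 : Q.Cover x₀ × Finset V →₀ ZMod 2)
        (x, κ) = 0 := by
      intro w _ hwv
      have h4 : (insert v κ).erase w ≠ κ := by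
        intro h5
        exact hv (h5 ▸ mem_erase.2 ⟨Ne.symm hwv, mem_insert_self v κ⟩)
      rw [Finsupp.add_apply, Finsupp.single_eq_of_ne (fun h => h4 (congrArg Prod.snd h).symm),
        Finsupp.single_eq_of_ne (fun h => h4 (congrArg Prod.snd h).symm), add_zero]
    have h4 := sum_eq_single_of_mem (s := insert v κ) (f := fun w =>
      ((Finsupp.single (y, (insert v κ).erase w) (1 : ZMod 2)) +
        Finsupp.single (Q.nbc x₀ w y, (insert v κ).erase w) 1 : Q.Cover x₀ × Finset V →₀ ZMod 2)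
        (x, κ)) v (mem_insert_self v κ) h3
    refine h4.trans ?_
    show ((Finsupp.single (y, (insert v κ).erase v) (1 : ZMod 2)) +
        Finsupp.single (Q.nbc x₀ v y, (insert v κ).erase v) 1 : Q.Cover x₀ × Finset V →₀ ZMod 2)
        (x, κ) = _
    rw [erase_insert hv, Finsupp.add_apply]
    have h5 : ∀ y' : Q.Cover x₀, (Finsupp.single (y', κ) (1 : ZMod 2)) (x, κ) =
        (Finsupp.single y' (1 : ZMod 2)) x := by
      intro y'
      by_cases h6 : y' = x
      · rw [h6, Finsupp.single_eq_same, Finsupp.single_eq_same]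
      · rw [Finsupp.single_eq_of_ne (fun h => h6 (congrArg Prod.fst h).symm),
          Finsupp.single_eq_of_ne (fun h => h6 h.symm)]
    rw [h5, h5]
  by_cases hbv : bit (Q.proj x₀ x) v = 0
  · have hev1 : ev v = (x, insert v κ) := by
      show (if bit (Q.proj x₀ x) v = 0 then x else Q.nbc x₀ v x, insert v κ) = _
      rw [if_pos hbv]
    show F (ev v) = _
    rw [hev1]
    by_cases hc : c (x, insert v κ) = 0
    · show (if (x, insert v κ) ∈ Cell Q x₀ bit (d + 1) then
        bdD Q x₀ (x, insert v κ) (x, κ) • c (x, insert v κ) else 0) = _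
      rw [hc, smul_zero, ite_self]
    · obtain ⟨g1, g2, g3⟩ := h0 _ hc
      have g1' : insert v κ ⊆ Q.lab (Q.proj x₀ x) := g1
      have hcell : (x, insert v κ) ∈ Cell Q x₀ bit (d + 1) := by
        refine ⟨g1, g2, g3, fun u hu => ?_⟩
        rcases mem_insert.1 hu with h3 | h3
        · rw [h3]
          exact hbv
        · exact hb4' u h3
      have hne : Q.nbc x₀ v x ≠ x := by
        intro h3
        have h4 := hbit v _ (g1' (mem_insert_self v κ)) v
        rw [← proj_nbc x₀ (g1' (mem_insert_self v κ)), h3, if_pos rfl] at h4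
        exact one_ne_zero (add_eq_left.1 h4.symm)
      show (if (x, insert v κ) ∈ Cell Q x₀ bit (d + 1) then
        bdD Q x₀ (x, insert v κ) (x, κ) • c (x, insert v κ) else 0) = _
      rw [if_pos hcell, hcoef, Finsupp.single_eq_same, Finsupp.single_eq_of_ne (Ne.symm hne),
        add_zero, one_smul]
  · have hb1v : bit (Q.proj x₀ x) v = 1 := by
      generalize bit (Q.proj x₀ x) v = a at hbv
      revert a
      decide
    have hev1 : ev v = (Q.nbc x₀ v x, insert v κ) := by
      show (if bit (Q.proj x₀ x) v = 0 then x else Q.nbc x₀ v x, insert v κ) = _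
      rw [if_neg hbv]
    show F (ev v) = _
    rw [hev1]
    by_cases hc : c (x, insert v κ) = 0
    · rw [hc]
      show (if (Q.nbc x₀ v x, insert v κ) ∈ Cell Q x₀ bit (d + 1) then
        bdD Q x₀ (Q.nbc x₀ v x, insert v κ) (x, κ) • c (Q.nbc x₀ v x, insert v κ) else 0) = _
      split_ifs with h3
      · have h4 := h1 (Q.nbc x₀ v x) (insert v κ) h3.1 v (mem_insert_self v κ)
        rw [nbc_nbc, hc] at h4
        rw [← h4, smul_zero]
      · rfl
    · obtain ⟨g1, g2, g3⟩ := h0 _ hc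
      have g1' : insert v κ ⊆ Q.lab (Q.proj x₀ x) := g1
      have g2' : Q.graph.IsClique ((insert v κ : Finset V) : Set V) := g2
      have hvl := g1' (mem_insert_self v κ)
      have hcell : (Q.nbc x₀ v x, insert v κ) ∈ Cell Q x₀ bit (d + 1) := by
        refine ⟨fun u hu => ?_, g2, g3, fun u hu => ?_⟩
        · rcases mem_insert.1 hu with h3 | h3
          · rw [h3]
            exact (Q.cover x₀).lab_nb v x hvl
          · have h4 : u ≠ v := fun h => hv (h ▸ h3)
            exact (Q.cover x₀).lab_adj u v x (g2' (mem_coe.2 hu)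
              (mem_coe.2 (mem_insert_self v κ)) h4) (g1' hu) hvl
        · show bit (Q.proj x₀ (Q.nbc x₀ v x)) u = 0
          rw [proj_nbc x₀ hvl, hbit v _ hvl u]
          rcases mem_insert.1 hu with h3 | h3
          · rw [h3, hb1v, if_pos rfl]
            decide
          · have h4 : u ≠ v := fun h => hv (h ▸ h3)
            rw [hb4' u h3, if_neg h4, add_zero]
      have hne : Q.nbc x₀ v x ≠ x := by
        intro h3
        have h4 := hbit v _ hvl v
        rw [← proj_nbc x₀ hvl, h3, if_pos rfl] at h4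
        exact one_ne_zero (add_eq_left.1 h4.symm)
      show (if (Q.nbc x₀ v x, insert v κ) ∈ Cell Q x₀ bit (d + 1) then
        bdD Q x₀ (Q.nbc x₀ v x, insert v κ) (x, κ) • c (Q.nbc x₀ v x, insert v κ) else 0) = _
      rw [if_pos hcell, hcoef, nbc_nbc, Finsupp.single_eq_same,
        Finsupp.single_eq_of_ne (Ne.symm hne), zero_add, one_smul]
      exact h1 x (insert v κ) g1' v (mem_insert_self v κ)

/-- the boundary of the translate of a cube -/
private theorem bdD_smul_map (hΓ : IsDeck Γ Q x₀) {i : ℕ} {e : Q.Cover x₀ × Finset V}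
    (he : e ∈ Cell Q x₀ bit i) (γ : Γ) :
    bdD Q x₀ (γ • e) = (bdD Q x₀ e).mapDomain (γ • ·) := by
  have h1 : (bdD Q x₀ e).mapDomain (γ • ·) = ∑ v ∈ e.2,
      ((Finsupp.single (e.1, e.2.erase v) 1 + Finsupp.single (Q.nbc x₀ v e.1, e.2.erase v) 1 :
        Q.Cover x₀ × Finset V →₀ ZMod 2)).mapDomain (γ • ·) :=
    map_sum (Finsupp.lmapDomain (ZMod 2) (ZMod 2) (γ • ·)) _ _
  rw [h1, bdD]
  refine sum_congr rfl fun v hv => ?_
  rw [Finsupp.mapDomain_add, Finsupp.mapDomain_single, Finsupp.mapDomain_single, cu_smul, cu_smul,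
    cu_smul, ← hΓ.nb γ v e.1 (he.1 hv)]

theorem bdD_smul_apply (hΓ : IsDeck Γ Q x₀) {i : ℕ} {e : Q.Cover x₀ × Finset V}
    (he : e ∈ Cell Q x₀ bit i) (γ : Γ) (b : Q.Cover x₀ × Finset V) :
    bdD Q x₀ (γ • e) (γ • b) = bdD Q x₀ e b := by
  rw [bdD_smul_map hΓ he, Finsupp.mapDomain_apply (MulAction.injective γ)]

end Pool.Agent.H37.TM
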